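import Pool.Agent.N455.HT.Hit

/-!
# Equidistribution modulo all integers (helper455)
-/

set_option autoImplicit false
set_option linter.unusedSectionVars false

open Filter Topology
open Pool.Agent.N666.TM Pool.Agent.Y722.HS

namespace Pool.Agent.N455.HT

variable {ι : Type} [Fintype ι] [DecidableEq ι]

/-- The vectors `x n`, `n ∈ S N`, `N → ∞`, are equidistributed modulo all integers. -/
def Equi (S : ℕ → Finset ℕ) (x : ℕ → ι → ℤ) : Prop :=
  ∀ q : ℕ, 1 ≤ q → ∀ r : ι → ℤ,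
    Tendsto (fun N : ℕ => ({n : ℕ | n ∈ S N ∧ ∀ i, x n i ≡ r i [ZMOD q]}.ncard : ℝ) / (S N).card)
      atTop (𝓝 (1 / (q : ℝ) ^ Fintype.card ι))

theorem ncard_class {S : ℕ → Finset ℕ} {x : ℕ → ι → ℤ} (q N : ℕ) (ρ : ι → ZMod q) (r : ι → ℤ)
    (h : red q r = ρ) :
    {n : ℕ | n ∈ S N ∧ ∀ i, x n i ≡ r i [ZMOD q]}.ncard =
      ((S N).filter fun n => red q (x n) = ρ).card := by
  classical
  rw [← Set.ncard_coe_finset]
  congr 1
  ext n
  simp only [Set.mem_ofPred_eq, Finset.coe_filter]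
  refine and_congr_right fun _ => ?_
  subst h
  constructor
  · intro h1
    funext i
    exact (ZMod.intCast_eq_intCast_iff _ _ _).2 (h1 i)
  · intro h1 i
    exact (ZMod.intCast_eq_intCast_iff _ _ _).1 (congrFun h1 i)

theorem WS.of_equi {S : ℕ → Finset ℕ} {x : ℕ → ι → ℤ} (h : Equi S x) : WS S x := by
  classical
  intro H
  have hpos : ∀ᶠ N in atTop, 0 < (S N).card := by
    have h1 := h 1 le_rfl (fun _ => 0)
    have h2 : (0 : ℝ) < 1 / ((1 : ℕ) : ℝ) ^ Fintype.card ι := by positivity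
    filter_upwards [h1.eventually (lt_mem_nhds h2)] with N hN
    by_contra h0
    have h3 : (S N).card = 0 := by omega
    rw [h3, Nat.cast_zero, div_zero] at hN
    exact lt_irrefl _ hN
  have hall : ∀ᶠ N in atTop, ∀ q ∈ Finset.Icc 1 (2 * H + 1), ∀ ρ : ι → ZMod q,
      |((((S N).filter fun n => red q (x n) = ρ).card : ℕ) : ℝ) / (S N).card -
        1 / (q : ℝ) ^ Fintype.card ι| ≤ 1 / (2 * H + 1) * (1 / (q : ℝ) ^ Fintype.card ι) := by
    rw [Filter.eventually_all_finset]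
    intro q hq
    rw [Finset.mem_Icc] at hq
    have : NeZero q := ⟨by omega⟩
    rw [Filter.eventually_all]
    intro ρ
    have h1 := h q hq.1 (fun i => ((ρ i).val : ℤ))
    have h2 : (0 : ℝ) < 1 / (2 * H + 1) * (1 / (q : ℝ) ^ Fintype.card ι) := by
      have : (0 : ℝ) < q := by exact_mod_cast hq.1
      positivity
    rw [Metric.tendsto_atTop] at h1
    obtain ⟨N₀, hN₀⟩ := h1 _ h2
    filter_upwards [eventually_ge_atTop N₀] with N hN
    have h3 := (hN₀ N hN).le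
    rw [Real.dist_eq, ncard_class q N ρ (fun i => ((ρ i).val : ℤ)) (by
      funext i
      simp [red])] at h3
    exact h3
  obtain ⟨N₀, hN₀⟩ := eventually_atTop.1 (hpos.and hall)
  refine ⟨N₀, fun N hN => ⟨(hN₀ N hN).1, fun q hq1 hq ρ => ?_⟩⟩
  have h1 := (hN₀ N hN).2 q (Finset.mem_Icc.2 ⟨hq1, hq⟩) ρ
  convert h1 using 5

theorem Equi.of_ws {S : ℕ → Finset ℕ} {x : ℕ → ι → ℤ} (h : WS S x) : Equi S x := by
  classical
  intro q hq r
  rw [Metric.tendsto_atTop]
  intro ε hε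
  obtain ⟨H, hH⟩ := exists_nat_gt (1 / ε)
  obtain ⟨N₀, hN₀⟩ := h (max H q)
  refine ⟨N₀, fun N hN => ?_⟩
  have h1 := (hN₀ N hN).dist q hq (by
    have := le_max_right H q
    omega) (red q r)
  rw [Real.dist_eq, ncard_class q N (red q r) r rfl]
  have hq0 : (1 : ℝ) ≤ q := by exact_mod_cast hq
  have h2 : (1 : ℝ) / (q : ℝ) ^ Fintype.card ι ≤ 1 := by
    rw [div_le_one (by positivity)]
    exact one_le_pow₀ hq0
  have h3 : (1 : ℝ) / (2 * ((max H q : ℕ) : ℝ) + 1) < ε := by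
    have h4 : (H : ℝ) ≤ ((max H q : ℕ) : ℝ) := by exact_mod_cast le_max_left H q
    rw [div_lt_iff₀ (by positivity)]
    rw [div_lt_iff₀ hε] at hH
    nlinarith
  refine lt_of_le_of_lt ?_ h3
  calc _ ≤ 1 / (2 * ((max H q : ℕ) : ℝ) + 1) * (1 / (q : ℝ) ^ Fintype.card ι) := by
        convert h1 using 5
    _ ≤ 1 / (2 * ((max H q : ℕ) : ℝ) + 1) * 1 := by gcongr
    _ = _ := mul_one _

end Pool.Agent.N455.HT
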