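import Pool.Agent.H921R2.TatePole.Main
import Pool.Agent.H921R2.TatePole.Dedekind
import Pool.Agent.H921R2.TatePole.Homs

/-!
# Degree one primes of number fields: sums over the primes (helper455)

`∑_p h_L(p) p ^ (-x) = ∑_p p ^ (-x) + O(1)` for `x → 1`, `h_L(p)` the number of the homomorphisms
`𝓞 L → 𝔽_p`; and the consequence for nonnegative `δ_p ≥ 1 - h₁(p) + a h₂(p) - B p ^ (-1/2)`: their
sum diverges.
-/

set_option autoImplicit false

open Filter Topology NumberField IsDedekindDomain Pool.Agent.H921R2.TatePole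

namespace Pool.Agent.N455.HT

section
variable (L : Type) [Field L] [NumberField L]

theorem hom_sum_bdd : Bdd (fun x => ∑' p : Nat.Primes, (hc (𝓞 L) p : ℝ) * w x p - W x) := by
  have h1 := prime_sum_bdd (K := L)
  have h2 := W_sub_Lam_bdd
  have h3 : Bdd (fun x => ∑' v : HeightOneSpectrum (𝓞 L), (nm v : ℝ) ^ (-x) -
      ∑' p : Nat.Primes, (hc (𝓞 L) p : ℝ) * w x p) := by
    refine ⟨1 * Module.finrank ℚ L * C0, ?_⟩
    filter_upwards [self_mem_nhdsWithin] with x hx
    have h4 := deg_two_bound (K := L) (x := x) hx (g := fun _ => (1 : ℝ)) (C := 1)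
      (fun v => by rw [abs_one])
    have e : ∀ p : Nat.Primes, (∑ v : {v : HeightOneSpectrum (𝓞 L) // below v = p},
        if deg v.1 = 1 then (1 : ℝ) else 0) = (hc (𝓞 L) p : ℝ) := by
      intro p
      rw [← R_eq_hc, Finset.sum_boole]
      rfl
    simp only [e, one_mul] at h4
    rw [one_mul]
    exact h4
  refine ((h1.sub h3).sub h2).congr fun x _ => ?_
  ring

theorem hc_le (p : Nat.Primes) : (hc (𝓞 L) p : ℝ) ≤ Module.finrank ℚ L := by
  rw [← R_eq_hc]
  exact_mod_cast R_le p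

theorem hc_summable {x : ℝ} (hx : 1 < x) :
    Summable fun p : Nat.Primes => (hc (𝓞 L) p : ℝ) * w x p := by
  refine Summable.of_nonneg_of_le (fun p => by
    have := w_nonneg x p
    positivity) (fun p => ?_) ((w_summable hx).mul_left (Module.finrank ℚ L : ℝ))
  exact mul_le_mul_of_nonneg_right (hc_le L p) (w_nonneg x p)

end

/-- `∑ p ^ (-3/2)` -/
noncomputable def C3 : ℝ := ∑' p : Nat.Primes, ((p : ℕ) : ℝ) ^ (-(3 / 2 : ℝ))

theorem half_le {x : ℝ} (hx : 1 < x) (p : Nat.Primes) :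
    ((p : ℕ) : ℝ) ^ (-(1 / 2 : ℝ)) * w x p ≤ ((p : ℕ) : ℝ) ^ (-(3 / 2 : ℝ)) := by
  have hp : (0 : ℝ) < (p : ℕ) := by exact_mod_cast p.prop.pos
  have hp1 : (1 : ℝ) ≤ (p : ℕ) := by exact_mod_cast p.prop.one_lt.le
  unfold w
  rw [← Real.rpow_add hp]
  exact Real.rpow_le_rpow_of_exponent_le hp1 (by linarith)

theorem half_summable {x : ℝ} (hx : 1 < x) :
    Summable fun p : Nat.Primes => ((p : ℕ) : ℝ) ^ (-(1 / 2 : ℝ)) * w x p :=
  Summable.of_nonneg_of_le (fun p => by
    have := w_nonneg x p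
    positivity) (half_le hx) (summable_primes_rpow (by norm_num))

theorem w_le_one {x : ℝ} (hx : 1 < x) (p : Nat.Primes) : w x p ≤ 1 := by
  have := prime_rpow_le_half p hx.le
  unfold w
  linarith

/-- **Divergence.** -/
theorem exists_sum_ge (L₁ L₂ : Type) [Field L₁] [NumberField L₁] [Field L₂] [NumberField L₂]
    {a B : ℝ} (ha : 0 < a) (hB : 0 ≤ B) (p₀ : ℕ) (δ : ℕ → ℝ) (h0 : ∀ p, 0 ≤ δ p)
    (h : ∀ p : ℕ, p.Prime → p₀ ≤ p → 1 - (hc (𝓞 L₁) p : ℝ) + a * hc (𝓞 L₂) p -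
      B * (p : ℝ) ^ (-(1 / 2 : ℝ)) ≤ δ p) (M : ℝ) :
    ∃ P : Finset ℕ, (∀ p ∈ P, p.Prime ∧ p₀ ≤ p) ∧ M ≤ ∑ p ∈ P, δ p := by
  classical
  by_contra hcon
  push Not at hcon
  -- the function on the primes
  set g : Nat.Primes → ℝ := fun p => if p₀ ≤ (p : ℕ) then δ p else 0 with hg
  have hg0 : ∀ p, 0 ≤ g p := by
    intro p
    rw [hg]
    dsimp only
    split_ifs
    · exact h0 _
    · exact le_rfl
  have hfin : ∀ F : Finset Nat.Primes, ∑ p ∈ F, g p ≤ M := by
    intro F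
    have h1 : ∑ p ∈ F, g p = ∑ p ∈ (F.filter fun p : Nat.Primes => p₀ ≤ (p : ℕ)).map
        ⟨fun p : Nat.Primes => (p : ℕ), Nat.Primes.coe_nat_injective⟩, δ p := by
      rw [Finset.sum_map, Finset.sum_filter]
      rfl
    rw [h1]
    refine (hcon _ ?_).le
    intro p hp
    rw [Finset.mem_map] at hp
    obtain ⟨q, hq, rfl⟩ := hp
    exact ⟨q.prop, (Finset.mem_filter.1 hq).2⟩
  -- the small primes
  have hsm : {p : Nat.Primes | (p : ℕ) < p₀}.Finite :=
    Set.Finite.preimage (Nat.Primes.coe_nat_injective.injOn) (Set.finite_lt_nat p₀)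
  set K : ℝ := 1 + a * Module.finrank ℚ L₂ with hK
  have hK0 : 0 ≤ K := by rw [hK]; positivity
  set e : Nat.Primes → ℝ := fun p => if (p : ℕ) < p₀ then K else 0 with he
  have he0 : ∀ p, 0 ≤ e p := by
    intro p
    rw [he]
    dsimp only
    split_ifs
    · exact hK0
    · exact le_rfl
  have hes : Summable e := by
    refine summable_of_finite_support (hsm.subset ?_)
    intro p hp
    by_contra h2
    apply hp
    rw [he]
    dsimp only
    exact if_neg h2
  -- the inequality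
  have hkey : ∀ x : ℝ, 1 < x → W x - ∑' p : Nat.Primes, (hc (𝓞 L₁) p : ℝ) * w x p +
      a * ∑' p : Nat.Primes, (hc (𝓞 L₂) p : ℝ) * w x p - B * C3 ≤ M + ∑' p, e p := by
    intro x hx
    have s1 := hc_summable L₁ hx
    have s2 := hc_summable L₂ hx
    have s3 := half_summable hx
    have s4 := w_summable hx
    have s5 : Summable fun p : Nat.Primes => g p * w x p := by
      refine Summable.of_nonneg_of_le (fun p => mul_nonneg (hg0 p) (w_nonneg x p))
        (fun p => mul_le_of_le_one_right (hg0 p) (w_le_one hx p)) ?_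
      exact summable_of_sum_le hg0 hfin
    have s6 : Summable fun p : Nat.Primes => e p * w x p :=
      Summable.of_nonneg_of_le (fun p => mul_nonneg (he0 p) (w_nonneg x p))
        (fun p => mul_le_of_le_one_right (he0 p) (w_le_one hx p)) hes
    have h2 : ∀ p : Nat.Primes, w x p - (hc (𝓞 L₁) p : ℝ) * w x p + a * ((hc (𝓞 L₂) p : ℝ) * w x p) -
        B * (((p : ℕ) : ℝ) ^ (-(1 / 2 : ℝ)) * w x p) ≤ g p * w x p + e p * w x p := by
      intro p
      have hw := w_nonneg x p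
      have h3 : 1 - (hc (𝓞 L₁) p : ℝ) + a * hc (𝓞 L₂) p - B * ((p : ℕ) : ℝ) ^ (-(1 / 2 : ℝ)) ≤
          g p + e p := by
        by_cases hp : p₀ ≤ (p : ℕ)
        · have h4 := h p p.prop hp
          have h5 : g p = δ p := if_pos hp
          have h6 := he0 p
          rw [h5]
          linarith
        · have h4 : e p = K := if_pos (not_le.1 hp)
          have h5 := hg0 p
          have h6 := hc_le L₂ p
          have h7 : (0 : ℝ) ≤ (hc (𝓞 L₁) p : ℝ) := by positivity
          have h8 : 0 ≤ B * ((p : ℕ) : ℝ) ^ (-(1 / 2 : ℝ)) := by positivity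
          have h9 : a * (hc (𝓞 L₂) p : ℝ) ≤ a * Module.finrank ℚ L₂ :=
            mul_le_mul_of_nonneg_left h6 ha.le
          rw [h4, hK]
          linarith
      calc _ = (1 - (hc (𝓞 L₁) p : ℝ) + a * hc (𝓞 L₂) p -
            B * ((p : ℕ) : ℝ) ^ (-(1 / 2 : ℝ))) * w x p := by ring
        _ ≤ (g p + e p) * w x p := mul_le_mul_of_nonneg_right h3 hw
        _ = _ := by ring
    have h4 := Summable.tsum_le_tsum h2 (((s4.sub s1).add (s2.mul_left a)).sub (s3.mul_left B))
      (s5.add s6)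
    rw [Summable.tsum_sub ((s4.sub s1).add (s2.mul_left a)) (s3.mul_left B),
      Summable.tsum_add (s4.sub s1) (s2.mul_left a), Summable.tsum_sub s4 s1, tsum_mul_left,
      tsum_mul_left, Summable.tsum_add s5 s6] at h4
    have h5 : ∑' p : Nat.Primes, g p * w x p ≤ M := by
      refine s5.tsum_le_of_sum_le fun F => ?_
      refine (Finset.sum_le_sum fun p _ => ?_).trans (hfin F)
      exact mul_le_of_le_one_right (hg0 p) (w_le_one hx p)
    have h6 : ∑' p : Nat.Primes, e p * w x p ≤ ∑' p, e p :=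
      Summable.tsum_le_tsum (fun p => mul_le_of_le_one_right (he0 p) (w_le_one hx p)) s6 hes
    have h7 : ∑' p : Nat.Primes, ((p : ℕ) : ℝ) ^ (-(1 / 2 : ℝ)) * w x p ≤ C3 :=
      Summable.tsum_le_tsum (half_le hx) s3 (summable_primes_rpow (by norm_num))
    have h8 : B * ∑' p : Nat.Primes, ((p : ℕ) : ℝ) ^ (-(1 / 2 : ℝ)) * w x p ≤ B * C3 :=
      mul_le_mul_of_nonneg_left h7 hB
    have h9 : ∑' p : Nat.Primes, w x p = W x := rfl
    rw [h9] at h4
    linarith
  -- the limit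
  obtain ⟨C₁, hC₁⟩ := hom_sum_bdd L₁
  obtain ⟨C₂, hC₂⟩ := hom_sum_bdd L₂
  have hW := W_tendsto.eventually_gt_atTop
    ((M + ∑' p, e p + B * C3 + C₁ + a * C₂) / a)
  obtain ⟨x, hx1, hx2, hx3, hx⟩ := (hC₁.and (hC₂.and (hW.and self_mem_nhdsWithin))).exists
  have hk := hkey x hx
  have b1 := (abs_le.1 hx1).2
  have b2 := (abs_le.1 hx2).1
  rw [div_lt_iff₀ ha] at hx3
  have b3 : a * (W x - C₂) ≤ a * ∑' p : Nat.Primes, (hc (𝓞 L₂) p : ℝ) * w x p :=
    mul_le_mul_of_nonneg_left (by linarith) ha.le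
  nlinarith

end Pool.Agent.N455.HT
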