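import Pool.Agent.N455.HT.Fld
import Pool.Agent.N455.HT.Avg

/-!
# The residue classes without roots: counting (helper455)
-/

set_option autoImplicit false
set_option linter.unusedSectionVars false

open Polynomial NumberField Pool.Agent.R410.LW
open Pool.Agent.H921R2.TatePole (hc)

namespace Pool.Agent.N455.HT

/-- evaluation at a point of a ring -/
noncomputable def ev {ι k : Type} [CommRing k] (v : ι → k) : MvPolynomial ι ℤ →+* k :=
  MvPolynomial.eval₂Hom (Int.castRingHom k) v

theorem ev_X {ι k : Type} [CommRing k] (v : ι → k) (i : ι) : ev v (MvPolynomial.X i) = v i :=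
  MvPolynomial.eval₂Hom_X' _ _ _

theorem hom_eq_ev {ι k : Type} [CommRing k] (φ : MvPolynomial ι ℤ →+* k) :
    φ = ev fun i => φ (MvPolynomial.X i) := by
  refine MvPolynomial.ringHom_ext (fun n => ?_) (fun i => ?_)
  · show (φ.comp MvPolynomial.C) n = ((ev _).comp MvPolynomial.C) n
    rw [RingHom.ext_int (φ.comp MvPolynomial.C) ((ev _).comp MvPolynomial.C)]
  · rw [ev_X]

theorem ev_eq_eval_map {ι k : Type} [CommRing k] (v : ι → k) (t : MvPolynomial ι ℤ) :
    ev v t = MvPolynomial.eval v (MvPolynomial.map (Int.castRingHom k) t) :=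
  (MvPolynomial.eval_map _ _ _).symm

section
variable {ι : Type} (P : (MvPolynomial ι ℤ)[X])

/-- `a` is a root of the polynomial at `v` -/
def IsRt {k : Type} [CommRing k] (v : ι → k) (a : k) : Prop := (P.map (ev v)).eval a = 0

theorem isRt_iff {k : Type} [CommRing k] (v : ι → k) (a : k) : IsRt P v a ↔ P.eval₂ (ev v) a = 0 := by
  unfold IsRt
  rw [eval_map]

/-- the points without roots -/
def NR (p : ℕ) : Set (ι → ZMod p) := {v | ∀ a : ZMod p, ¬ IsRt P v a}

/-- the homomorphisms from the ring of one root -/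
noncomputable def homEquiv (k : Type) [CommRing k] :
    (AdjoinRoot P →+* k) ≃ {q : (ι → k) × k // IsRt P q.1 q.2} where
  toFun φ := ⟨(fun i => φ (AdjoinRoot.of P (MvPolynomial.X i)), φ (AdjoinRoot.root P)), by
    rw [isRt_iff]
    have h1 : ev (fun i => φ (AdjoinRoot.of P (MvPolynomial.X i))) = φ.comp (AdjoinRoot.of P) :=
      (hom_eq_ev (φ.comp (AdjoinRoot.of P))).symm
    rw [h1, ← hom_eval₂, AdjoinRoot.eval₂_root, map_zero]⟩
  invFun q := AdjoinRoot.lift (ev q.1.1) q.1.2 ((isRt_iff P _ _).1 q.2)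
  left_inv φ := by
    refine RingHom.ext fun z => ?_
    obtain ⟨q, rfl⟩ := AdjoinRoot.mk_surjective z
    have h1 : ev (fun i => φ (AdjoinRoot.of P (MvPolynomial.X i))) = φ.comp (AdjoinRoot.of P) :=
      (hom_eq_ev (φ.comp (AdjoinRoot.of P))).symm
    simp only [AdjoinRoot.lift_mk]
    rw [h1, ← hom_eval₂, ← AdjoinRoot.aeval_eq]
    rfl
  right_inv q := by
    apply Subtype.ext
    apply Prod.ext
    · funext i
      simp only [AdjoinRoot.lift_of, ev_X]
    · simp only [AdjoinRoot.lift_root]

theorem homEquiv_spec (k : Type) [CommRing k] (φ : AdjoinRoot P →+* k) (t : MvPolynomial ι ℤ) :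
    ev ((homEquiv P k φ).1.1) t = φ (AdjoinRoot.of P t) := by
  have h1 : ev (fun i => φ (AdjoinRoot.of P (MvPolynomial.X i))) = φ.comp (AdjoinRoot.of P) :=
      (hom_eq_ev (φ.comp (AdjoinRoot.of P))).symm
  exact congrFun (congrArg DFunLike.coe h1) t

end

section
variable {ι : Type} [Fintype ι] [DecidableEq ι] (P : (MvPolynomial ι ℤ)[X]) (k : Type) [Field k] [Fintype k]

open Classical in
/-- the roots -/
noncomputable def rts (v : ι → k) : Finset k := Finset.univ.filter fun a => IsRt P v a

theorem mem_rts {v : ι → k} {a : k} : a ∈ rts P k v ↔ IsRt P v a := by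
  classical
  simp [rts]

theorem rts_card_le (hP : P.Monic) (v : ι → k) : (rts P k v).card ≤ P.natDegree := by
  classical
  have h1 : (P.map (ev v)).Monic := hP.map _
  have h2 : rts P k v ⊆ (P.map (ev v)).roots.toFinset := by
    intro a ha
    rw [mem_rts] at ha
    rw [Multiset.mem_toFinset, mem_roots h1.ne_zero]
    exact ha
  refine (Finset.card_le_card h2).trans ((Multiset.toFinset_card_le _).trans
    ((card_roots' _).trans ?_))
  rw [hP.natDegree_map]

open Classical in
/-- the upper bound for the number of the pairs -/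
theorem upper (hP : P.Monic) (t : MvPolynomial ι ℤ) :
    ∑ v : ι → k, (rts P k v).card ≤
      Nat.card {φ : AdjoinRoot P →+* k // φ (AdjoinRoot.of P t) ≠ 0} +
      P.natDegree * Nat.card {v : ι → k // ev v t = 0} := by
  have e1 : ∑ v : ι → k, (rts P k v).card =
      ∑ v ∈ Finset.univ.filter (fun v : ι → k => ev v t ≠ 0), (rts P k v).card +
      ∑ v ∈ Finset.univ.filter (fun v : ι → k => ¬ ev v t ≠ 0), (rts P k v).card :=
    (Finset.sum_filter_add_sum_filter_not _ _ _).symm
  rw [e1]
  refine add_le_add ?_ ?_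
  · have e2 : Nat.card {φ : AdjoinRoot P →+* k // φ (AdjoinRoot.of P t) ≠ 0} =
        Nat.card (Σ v : {v : ι → k // ev v t ≠ 0}, {a : k // IsRt P v.1 a}) := by
      refine Nat.card_congr ?_
      refine (Equiv.subtypeEquiv (homEquiv P k) (q := fun q => ev q.1.1 t ≠ 0) fun φ => ?_).trans ?_
      · rw [homEquiv_spec]
      · exact
          { toFun := fun q => ⟨⟨q.1.1.1, q.2⟩, ⟨q.1.1.2, q.1.2⟩⟩
            invFun := fun q => ⟨⟨(q.1.1, q.2.1), q.2.2⟩, q.1.2⟩
            left_inv := fun _ => rfl
            right_inv := fun _ => rfl }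
    rw [e2, Nat.card_eq_fintype_card, Fintype.card_sigma]
    have e3 : ∑ v ∈ Finset.univ.filter (fun v : ι → k => ev v t ≠ 0), (rts P k v).card =
        ∑ v : {v : ι → k // ev v t ≠ 0}, (rts P k v.1).card := by
      rw [← Finset.sum_subtype_eq_sum_filter]
      simp
    rw [e3]
    refine (Finset.sum_congr rfl fun v _ => ?_).le
    unfold rts
    rw [Fintype.card_subtype]
  · have e2 : Nat.card {v : ι → k // ev v t = 0} =
        (Finset.univ.filter (fun v : ι → k => ¬ ev v t ≠ 0)).card := by
      rw [Nat.card_eq_fintype_card, Fintype.card_subtype]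
      congr 1
      ext v
      simp
    rw [e2, mul_comm, ← smul_eq_mul, ← Finset.sum_const]
    exact Finset.sum_le_sum fun v _ => rts_card_le P k hP v

/-- the number of the triples of different roots -/
theorem triples (T : Type) (f : T → (ι → k) × k × k) (hf : Function.Injective f)
    (h : ∀ τ, IsRt P (f τ).1 (f τ).2.1 ∧ IsRt P (f τ).1 (f τ).2.2 ∧ (f τ).2.1 ≠ (f τ).2.2) :
    Nat.card T ≤ ∑ v : ι → k, ((rts P k v).card * (rts P k v).card - (rts P k v).card) := by
  classical
  have h1 : ∑ v : ι → k, ((rts P k v).card * (rts P k v).card - (rts P k v).card) =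
      (Finset.univ.sigma fun v : ι → k => (rts P k v).offDiag).card := by
    rw [Finset.card_sigma]
    exact Finset.sum_congr rfl fun v _ => (Finset.offDiag_card _).symm
  rw [h1]
  have hfin : Finite T := Finite.of_injective f hf
  have := Fintype.ofFinite T
  rw [Nat.card_eq_fintype_card, ← Finset.card_univ]
  refine Finset.card_le_card_of_injOn (fun τ => ⟨(f τ).1, (f τ).2⟩) ?_ ?_
  · intro τ _
    rw [Finset.mem_coe, Finset.mem_sigma]
    refine ⟨Finset.mem_univ _, ?_⟩
    rw [Finset.mem_offDiag, mem_rts, mem_rts]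
    exact h τ
  · intro τ _ τ' _ hτ
    apply hf
    simp only [Sigma.mk.injEq, heq_eq_eq] at hτ
    exact Prod.ext hτ.1 hτ.2

end

section
variable {ι : Type} [Fintype ι] [DecidableEq ι] (P : (MvPolynomial ι ℤ)[X])

/-- the inequality for one prime -/
theorem ncard_NR (p : ℕ) [Fact p.Prime] (hP : P.Monic) (hd : 2 ≤ P.natDegree) :
    (p : ℝ) ^ Fintype.card ι - ((∑ v : ι → ZMod p, (rts P (ZMod p) v).card : ℕ) : ℝ) +
      ((∑ v : ι → ZMod p, ((rts P (ZMod p) v).card * (rts P (ZMod p) v).card -
        (rts P (ZMod p) v).card) : ℕ) : ℝ) / P.natDegree ≤ ((NR P p).ncard : ℝ) := by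
  classical
  have e1 : ((NR P p).ncard : ℝ) = ∑ v : ι → ZMod p, if v ∈ NR P p then (1 : ℝ) else 0 := by
    rw [Finset.sum_boole, Set.ncard_eq_toFinset_card']
    congr 3
    ext v
    simp
  have e2 : (p : ℝ) ^ Fintype.card ι = ∑ v : ι → ZMod p, (1 : ℝ) := by
    rw [Finset.sum_const, Finset.card_univ, Fintype.card_fun, ZMod.card, nsmul_eq_mul, mul_one]
    push_cast
    rfl
  rw [e1, e2]
  push_cast
  rw [Finset.sum_div, ← Finset.sum_sub_distrib, ← Finset.sum_add_distrib]
  refine Finset.sum_le_sum fun v _ => ?_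
  have hD : (0 : ℝ) < P.natDegree := by exact_mod_cast (by omega : 0 < P.natDegree)
  have h1 : ((rts P (ZMod p) v).card : ℝ) ≤ P.natDegree := by
    exact_mod_cast rts_card_le P (ZMod p) hP v
  by_cases hv : v ∈ NR P p
  · have h0 : (rts P (ZMod p) v).card = 0 := by
      rw [Finset.card_eq_zero, Finset.eq_empty_iff_forall_notMem]
      intro a ha
      exact hv a ((mem_rts P (ZMod p)).1 ha)
    rw [if_pos hv, h0]
    simp
  · have h0 : 1 ≤ (rts P (ZMod p) v).card := by
      rw [Finset.one_le_card]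
      have hv' : ¬ ∀ a : ZMod p, ¬ IsRt P v a := hv
      push Not at hv'
      obtain ⟨a, ha⟩ := hv'
      exact ⟨a, (mem_rts P (ZMod p)).2 ha⟩
    rw [if_neg hv]
    have h2 : (((rts P (ZMod p) v).card * (rts P (ZMod p) v).card - (rts P (ZMod p) v).card : ℕ) : ℝ) =
        ((rts P (ZMod p) v).card : ℝ) * ((rts P (ZMod p) v).card - 1) := by
      rw [Nat.cast_sub (Nat.le_mul_of_pos_left _ h0)]
      push_cast
      ring
    rw [h2]
    have h3 : (1 : ℝ) ≤ (rts P (ZMod p) v).card := by exact_mod_cast h0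
    have h4 : ((rts P (ZMod p) v).card : ℝ) * ((rts P (ZMod p) v).card - 1) / P.natDegree ≤
        (rts P (ZMod p) v).card - 1 := by
      rw [div_le_iff₀ hD, mul_comm]
      exact mul_le_mul_of_nonneg_left h1 (by linarith)
    linarith

end

end Pool.Agent.N455.HT
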