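import Pool.Agent.N455.HT.Cnt
import Pool.Agent.H126R3.CharM

/-!
# The density of the residue classes without roots (helper455)
-/

set_option autoImplicit false
set_option linter.unusedSectionVars false

open Polynomial NumberField Pool.Agent.R410.LW
open Pool.Agent.H921R2.TatePole (hc)

namespace Pool.Agent.N455.HT

section
variable {ι : Type} [Fintype ι] [DecidableEq ι]

/-- the zeros of a nonzero polynomial modulo large primes -/
theorem zeros_le (t : MvPolynomial ι ℤ) (ht : t ≠ 0) : ∃ p₀ : ℕ, ∀ (p : ℕ) [Fact p.Prime], p₀ ≤ p →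
    (Nat.card {v : ι → ZMod p // ev v t = 0} : ℝ) * p ≤
      t.totalDegree * (p : ℝ) ^ Fintype.card ι := by
  obtain ⟨m, hm⟩ := MvPolynomial.ne_zero_iff.1 ht
  refine ⟨(MvPolynomial.coeff m t).natAbs + 1, fun p hp h => ?_⟩
  set t' := MvPolynomial.map (Int.castRingHom (ZMod p)) t with ht'
  have h0 : t' ≠ 0 := by
    intro h0
    have h1 : MvPolynomial.coeff m t' = 0 := by rw [h0, MvPolynomial.coeff_zero]
    rw [ht', MvPolynomial.coeff_map, eq_intCast, ZMod.intCast_zmod_eq_zero_iff_dvd] at h1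
    have h2 := Int.natAbs_dvd_natAbs.2 h1
    rw [Int.natAbs_natCast] at h2
    have h3 := Nat.le_of_dvd (Int.natAbs_pos.2 hm) h2
    omega
  have h1 := Pool.Agent.H126R3.sz t' h0
  rw [ZMod.card] at h1
  have h2 : Nat.card {v : ι → ZMod p // ev v t = 0} =
      Nat.card {u : ι → ZMod p // MvPolynomial.eval u t' = 0} := by
    refine Nat.card_congr (Equiv.subtypeEquivRight fun v => ?_)
    rw [ev_eq_eval_map]
  rw [h2]
  refine h1.trans ?_
  have h3 : t'.totalDegree ≤ t.totalDegree :=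
    Finset.sup_mono (MvPolynomial.support_map_subset _ _)
  gcongr

/-- the upper bound -/
theorem upper_all {P : (MvPolynomial ι ℤ)[X]} (hP : P.Monic) (hd : P.natDegree ≠ 0)
    (hirr : Irreducible P) :
    ∃ (L : Type) (_ : Field L) (_ : NumberField L) (B : ℝ) (p₀ : ℕ), 0 ≤ B ∧
      ∀ (p : ℕ) [Fact p.Prime], p₀ ≤ p →
        ((∑ v : ι → ZMod p, (rts P (ZMod p) v).card : ℕ) : ℝ) * √(p : ℝ) ≤
          hc (𝓞 L) p * (p : ℝ) ^ Fintype.card ι * √(p : ℝ) + B * (p : ℝ) ^ Fintype.card ι := by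
  obtain ⟨L, iL, nL, s, hs0, hs⟩ := landau_one hP hd hirr
  have h0 := adj_isDomain hirr
  have h1 := adj_alg hP
  obtain ⟨t, ht0, hst⟩ := (h1.1 s).exists_nonzero_dvd (mem_nonZeroDivisors_of_ne_zero hs0)
  have ht1 : algebraMap (MvPolynomial ι ℤ) (AdjoinRoot P) t ≠ 0 := fun h =>
    ht0 (of_inj hP hd (h.trans (map_zero _).symm))
  obtain ⟨C, N, hC, hN, hCN⟩ := hs _ ht1 hst
  obtain ⟨p₁, hp₁⟩ := zeros_le t ht0
  refine ⟨L, iL, nL, C + P.natDegree * t.totalDegree, max (N + 1) p₁, by positivity, ?_⟩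
  intro p hp hpp
  have hp1 : N + 1 ≤ p := (le_max_left _ _).trans hpp
  have hp2 : p₁ ≤ p := (le_max_right _ _).trans hpp
  have hNk : ((N : ℕ) : ZMod p) ≠ 0 := by
    rw [Ne, ZMod.natCast_eq_zero_iff]
    intro h
    have := Nat.le_of_dvd (Nat.pos_of_ne_zero hN) h
    omega
  have h2 := hCN (ZMod p) hNk
  rw [Nat.card_zmod] at h2
  have h3 := upper P (ZMod p) hP t
  have h4 := hp₁ p hp2
  have hq : (1 : ℝ) ≤ p := by exact_mod_cast hp.out.one_lt.le
  have hsq : √(p : ℝ) * √(p : ℝ) = p := Real.mul_self_sqrt (by positivity)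
  have hsq1 : 1 ≤ √(p : ℝ) := Real.one_le_sqrt.2 hq
  set S : ℝ := √(p : ℝ) with hS
  set Q : ℝ := (p : ℝ) ^ Fintype.card ι with hQ
  have hQ0 : 0 ≤ Q := by rw [hQ]; positivity
  set Z : ℝ := (Nat.card {v : ι → ZMod p // ev v t = 0} : ℝ) with hZ
  have hZ0 : 0 ≤ Z := by rw [hZ]; positivity
  set H : ℝ := (Nat.card {φ : AdjoinRoot P →+* ZMod p // φ (AdjoinRoot.of P t) ≠ 0} : ℝ) with hH
  have h5 : (H - (hc (𝓞 L) p : ℝ) * Q) * S ≤ C * Q := by
    refine le_trans ?_ h2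
    exact mul_le_mul_of_nonneg_right (le_abs_self _) (by linarith)
  have h6 : ((∑ v : ι → ZMod p, (rts P (ZMod p) v).card : ℕ) : ℝ) ≤ H + P.natDegree * Z := by
    rw [hH, hZ]
    exact_mod_cast h3
  have h7 : Z * S ≤ t.totalDegree * Q := by
    refine le_trans ?_ h4
    refine mul_le_mul_of_nonneg_left ?_ hZ0
    nlinarith
  have h8 : (0 : ℝ) ≤ P.natDegree := by positivity
  calc ((∑ v : ι → ZMod p, (rts P (ZMod p) v).card : ℕ) : ℝ) * S ≤ (H + P.natDegree * Z) * S :=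
        mul_le_mul_of_nonneg_right h6 (by linarith)
    _ = (H - (hc (𝓞 L) p : ℝ) * Q) * S + (hc (𝓞 L) p : ℝ) * Q * S + P.natDegree * (Z * S) := by ring
    _ ≤ C * Q + (hc (𝓞 L) p : ℝ) * Q * S + P.natDegree * (t.totalDegree * Q) := by
        have := mul_le_mul_of_nonneg_left h7 h8
        linarith
    _ = _ := by ring

/-- the lower bound -/
theorem lower_all {P : (MvPolynomial ι ℤ)[X]} (hP : P.Monic) (hd : 2 ≤ P.natDegree)
    (hirr : Irreducible P) :
    ∃ (L : Type) (_ : Field L) (_ : NumberField L) (B : ℝ) (p₀ : ℕ), 0 ≤ B ∧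
      ∀ (p : ℕ) [Fact p.Prime], p₀ ≤ p →
        hc (𝓞 L) p * (p : ℝ) ^ Fintype.card ι * √(p : ℝ) - B * (p : ℝ) ^ Fintype.card ι ≤
        ((∑ v : ι → ZMod p, ((rts P (ZMod p) v).card * (rts P (ZMod p) v).card -
          (rts P (ZMod p) v).card) : ℕ) : ℝ) * √(p : ℝ) := by
  classical
  obtain ⟨M, iM, cM, aM, θ₁, θ₂, hinj, halg, hne, hr1, hr2, hcl⟩ := exists_two hP hd hirr
  set S : Finset M := (Finset.univ.image fun i => algebraMap (MvPolynomial ι ℤ) M
    (MvPolynomial.X i)) ∪ {θ₁, θ₂} with hS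
  have hScl : Subfield.closure (S : Set M) = ⊤ := by
    rw [← hcl, hS]
    congr 1
    push_cast
    rw [Set.image_univ]
  obtain ⟨hft, hfr⟩ := closure_spec S hScl
  set A := Algebra.adjoin ℤ (S : Set M) with hA
  have hft' := ft_int _ hft
  obtain ⟨L, iL, nL, s, hs0, hs⟩ := landau_model (ι := ι) A M hinj
  have hmX : ∀ i, algebraMap (MvPolynomial ι ℤ) M (MvPolynomial.X i) ∈ A := fun i =>
    Algebra.subset_adjoin (by
      rw [hS, Finset.coe_union]
      left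
      rw [Finset.mem_coe, Finset.mem_image]
      exact ⟨i, Finset.mem_univ _, rfl⟩)
  have hm1 : θ₁ ∈ A := Algebra.subset_adjoin (by
      rw [hS, Finset.coe_union]
      right
      simp)
  have hm2 : θ₂ ∈ A := Algebra.subset_adjoin (by
      rw [hS, Finset.coe_union]
      right
      simp)
  set t₁ : A := ⟨θ₁, hm1⟩ with ht₁
  set t₂ : A := ⟨θ₂, hm2⟩ with ht₂
  set x : ι → A := fun i => ⟨_, hmX i⟩ with hx
  have htt : t₁ - t₂ ≠ 0 := by
    intro h
    exact hne (congrArg Subtype.val (sub_eq_zero.1 h))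
  obtain ⟨C, N, hC, hN, hCN⟩ := hs (s * (t₁ - t₂)) (mul_ne_zero hs0 htt) (dvd_mul_right _ _)
  -- the roots
  have hev : (A.val : A →+* M).comp (ev x) = algebraMap (MvPolynomial ι ℤ) M := by
    refine MvPolynomial.ringHom_ext (fun n => ?_) (fun i => ?_)
    · show (((A.val : A →+* M).comp (ev x)).comp MvPolynomial.C) n =
        ((algebraMap (MvPolynomial ι ℤ) M).comp MvPolynomial.C) n
      rw [RingHom.ext_int (((A.val : A →+* M).comp (ev x)).comp MvPolynomial.C)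
        ((algebraMap (MvPolynomial ι ℤ) M).comp MvPolynomial.C)]
    · rw [RingHom.comp_apply, ev_X]
      rfl
  have hval : Function.Injective (A.val : A →+* M) := Subtype.val_injective
  have hroot : ∀ t : A, aeval (t : M) P = 0 → P.eval₂ (ev x) t = 0 := by
    intro t ht
    apply hval
    rw [hom_eval₂, hev, map_zero]
    exact ht
  refine ⟨L, iL, nL, C, N + 1, hC, ?_⟩
  intro p hp hpp
  have hNk : ((N : ℕ) : ZMod p) ≠ 0 := by
    rw [Ne, ZMod.natCast_eq_zero_iff]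
    intro h
    have := Nat.le_of_dvd (Nat.pos_of_ne_zero hN) h
    omega
  have h2 := hCN (ZMod p) hNk
  rw [Nat.card_zmod] at h2
  have hev2 : ∀ φ : A →+* ZMod p, ev (fun i => φ (x i)) = φ.comp (ev x) := by
    intro φ
    rw [hom_eq_ev (φ.comp (ev x))]
    congr 1
    funext i
    rw [RingHom.comp_apply, ev_X]
  have h3 := triples P (ZMod p) {φ : A →+* ZMod p // φ (s * (t₁ - t₂)) ≠ 0}
    (fun φ => (fun i => φ.1 (x i), φ.1 t₁, φ.1 t₂)) (by
      intro φ ψ h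
      simp only [Prod.mk.injEq] at h
      obtain ⟨e1, e2, e3⟩ := h
      apply Subtype.ext
      refine RingHom.ext fun y => ?_
      obtain ⟨y, hy⟩ := y
      induction hy using Algebra.adjoin_induction with
      | mem y hy =>
        rw [hS, Finset.coe_union] at hy
        rcases hy with hy | hy
        · rw [Finset.mem_coe, Finset.mem_image] at hy
          obtain ⟨i, -, rfl⟩ := hy
          exact congrFun e1 i
        · rw [Finset.mem_coe, Finset.mem_insert, Finset.mem_singleton] at hy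
          rcases hy with rfl | rfl
          · exact e2
          · exact e3
      | algebraMap n =>
        have e4 : (⟨algebraMap ℤ M n, Subalgebra.algebraMap_mem A n⟩ : A) = (n : A) := by
          apply Subtype.ext
          show algebraMap ℤ M n = ((n : A) : M)
          rw [eq_intCast]
          push_cast
          rfl
        rw [e4, map_intCast, map_intCast]
      | add a b ha hb h1 h2 =>
        have e4 : (⟨a + b, add_mem ha hb⟩ : A) = ⟨a, ha⟩ + ⟨b, hb⟩ := rfl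
        rw [e4, map_add, map_add, h1, h2]
      | mul a b ha hb h1 h2 =>
        have e4 : (⟨a * b, mul_mem ha hb⟩ : A) = ⟨a, ha⟩ * ⟨b, hb⟩ := rfl
        rw [e4, map_mul, map_mul, h1, h2])
    (by
      rintro ⟨φ, hφ⟩
      refine ⟨?_, ?_, ?_⟩
      · rw [isRt_iff]
        show P.eval₂ (ev fun i => φ (x i)) (φ t₁) = 0
        rw [hev2, ← hom_eval₂, hroot t₁ hr1, map_zero]
      · rw [isRt_iff]
        show P.eval₂ (ev fun i => φ (x i)) (φ t₂) = 0
        rw [hev2, ← hom_eval₂, hroot t₂ hr2, map_zero]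
      · intro h
        apply hφ
        have h' : φ t₁ = φ t₂ := h
        rw [map_mul, map_sub, h', sub_self, mul_zero])
  have hq : (1 : ℝ) ≤ p := by exact_mod_cast hp.out.one_lt.le
  have hsq1 : 1 ≤ √(p : ℝ) := Real.one_le_sqrt.2 hq
  have h4 := (abs_le.1 (le_of_eq (abs_of_nonneg (by positivity : (0:ℝ) ≤ |(Nat.card
    {φ : A →+* ZMod p // φ (s * (t₁ - t₂)) ≠ 0} : ℝ) - Nat.card (𝓞 L →+* ZMod p) *
      (p : ℝ) ^ Fintype.card ι|)))).2
  have h5 : ((hc (𝓞 L) p : ℝ) * (p : ℝ) ^ Fintype.card ι -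
      (Nat.card {φ : A →+* ZMod p // φ (s * (t₁ - t₂)) ≠ 0} : ℝ)) * √(p : ℝ) ≤
      C * (p : ℝ) ^ Fintype.card ι := by
    refine le_trans ?_ h2
    refine mul_le_mul_of_nonneg_right ?_ (by linarith)
    rw [abs_sub_comm]
    exact le_abs_self _
  have h6 : (Nat.card {φ : A →+* ZMod p // φ (s * (t₁ - t₂)) ≠ 0} : ℝ) ≤
      ((∑ v : ι → ZMod p, ((rts P (ZMod p) v).card * (rts P (ZMod p) v).card -
          (rts P (ZMod p) v).card) : ℕ) : ℝ) := by exact_mod_cast h3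
  have h7 := mul_le_mul_of_nonneg_right h6 (by linarith : (0 : ℝ) ≤ √(p : ℝ))
  linarith

/-- **The density of the residue classes without roots.** -/
theorem dens_lower {P : (MvPolynomial ι ℤ)[X]} (hP : P.Monic) (hd : 2 ≤ P.natDegree)
    (hirr : Irreducible P) :
    ∃ (L₁ : Type) (_ : Field L₁) (_ : NumberField L₁) (L₂ : Type) (_ : Field L₂)
      (_ : NumberField L₂) (B : ℝ) (p₀ : ℕ), 0 ≤ B ∧ ∀ p : ℕ, p.Prime → p₀ ≤ p →
        1 - (hc (𝓞 L₁) p : ℝ) + 1 / P.natDegree * hc (𝓞 L₂) p - B * (p : ℝ) ^ (-(1 / 2 : ℝ)) ≤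
          ((NR P p).ncard : ℝ) / (p : ℝ) ^ Fintype.card ι := by
  obtain ⟨L₁, i₁, n₁, B₁, p₁, hB₁, h₁⟩ := upper_all hP (by omega) hirr
  obtain ⟨L₂, i₂, n₂, B₂, p₂, hB₂, h₂⟩ := lower_all hP hd hirr
  have hD : (0 : ℝ) < P.natDegree := by exact_mod_cast (by omega : 0 < P.natDegree)
  refine ⟨L₁, i₁, n₁, L₂, i₂, n₂, B₁ + 1 / P.natDegree * B₂, max p₁ p₂, by positivity, ?_⟩
  intro p hp hpp
  have : Fact p.Prime := ⟨hp⟩
  have a1 := h₁ p ((le_max_left _ _).trans hpp)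
  have a2 := h₂ p ((le_max_right _ _).trans hpp)
  have a3 := ncard_NR P p hP hd
  have hq : (1 : ℝ) ≤ p := by exact_mod_cast hp.one_lt.le
  have hsq1 : 1 ≤ √(p : ℝ) := Real.one_le_sqrt.2 hq
  have hrp : (p : ℝ) ^ (-(1 / 2 : ℝ)) = (√(p : ℝ))⁻¹ := by
    rw [Real.rpow_neg (by positivity), ← Real.sqrt_eq_rpow]
  rw [hrp]
  set S : ℝ := √(p : ℝ) with hS
  have hS0 : 0 < S := by linarith
  set Q : ℝ := (p : ℝ) ^ Fintype.card ι with hQ
  have hQ0 : 0 < Q := by rw [hQ]; positivity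
  set N₁ : ℝ := ((∑ v : ι → ZMod p, (rts P (ZMod p) v).card : ℕ) : ℝ) with hN₁
  set N₂ : ℝ := ((∑ v : ι → ZMod p, ((rts P (ZMod p) v).card * (rts P (ZMod p) v).card -
          (rts P (ZMod p) v).card) : ℕ) : ℝ) with hN₂
  have b1 : N₁ ≤ hc (𝓞 L₁) p * Q + B₁ * S⁻¹ * Q := by
    have : N₁ * S ≤ (hc (𝓞 L₁) p * Q + B₁ * S⁻¹ * Q) * S := by
      have e : (hc (𝓞 L₁) p * Q + B₁ * S⁻¹ * Q) * S = hc (𝓞 L₁) p * Q * S + B₁ * Q := by
        field_simp
      rw [e]
      exact a1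
    exact le_of_mul_le_mul_right this hS0
  have b2 : hc (𝓞 L₂) p * Q - B₂ * S⁻¹ * Q ≤ N₂ := by
    have : (hc (𝓞 L₂) p * Q - B₂ * S⁻¹ * Q) * S ≤ N₂ * S := by
      have e : (hc (𝓞 L₂) p * Q - B₂ * S⁻¹ * Q) * S = hc (𝓞 L₂) p * Q * S - B₂ * Q := by
        field_simp
      rw [e]
      exact a2
    exact le_of_mul_le_mul_right this hS0
  rw [le_div_iff₀ hQ0]
  refine le_trans ?_ a3
  have b3 : 1 / (P.natDegree : ℝ) * (hc (𝓞 L₂) p * Q - B₂ * S⁻¹ * Q) ≤ N₂ / P.natDegree := by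
    rw [div_mul_eq_mul_div, one_mul]
    gcongr
  have e : (1 - (hc (𝓞 L₁) p : ℝ) + 1 / P.natDegree * hc (𝓞 L₂) p -
      (B₁ + 1 / P.natDegree * B₂) * S⁻¹) * Q = Q - (hc (𝓞 L₁) p * Q + B₁ * S⁻¹ * Q) +
        1 / (P.natDegree : ℝ) * (hc (𝓞 L₂) p * Q - B₂ * S⁻¹ * Q) := by ring
  rw [e]
  linarith

/-- **Divergence of the sum of the densities of the residue classes without roots.** -/
theorem exists_primes {P : (MvPolynomial ι ℤ)[X]} (hP : P.Monic) (hd : 2 ≤ P.natDegree)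
    (hirr : Irreducible P) (M : ℝ) :
    ∃ T : Finset ℕ, (∀ p ∈ T, p.Prime) ∧
      M ≤ ∑ p ∈ T, ((NR P p).ncard : ℝ) / (p : ℝ) ^ Fintype.card ι := by
  obtain ⟨L₁, i₁, n₁, L₂, i₂, n₂, B, p₀, hB, h⟩ := dens_lower hP hd hirr
  have hD : (0 : ℝ) < P.natDegree := by exact_mod_cast (by omega : 0 < P.natDegree)
  obtain ⟨T, hT, hM⟩ := exists_sum_ge L₁ L₂ (a := 1 / P.natDegree) (by positivity) hB p₀
    (fun p => ((NR P p).ncard : ℝ) / (p : ℝ) ^ Fintype.card ι) (fun p => by positivity) h M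
  exact ⟨T, fun p hp => (hT p hp).1, hM⟩

end

end Pool.Agent.N455.HT
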