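import Pool.Agent.N455.HT.Equi

/-!
# One null set for countably many null sets (helper455)
-/

set_option autoImplicit false

namespace Pool.Agent.N455.HT

open Pool.Agent.N666.TM (NullIn)

/-- **One null set.** Countably many null sets are contained in one null set, up to finite sets. -/
theorem diag_gen {κ : Type} [Countable κ] {B : κ → Set ℕ} {S : ℕ → Finset ℕ}
    (h : ∀ j, NullIn S (B j)) : ∃ E : Set ℕ, NullIn S E ∧ ∀ j, (B j \ E).Finite := by
  classical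
  obtain ⟨f, hf⟩ := Countable.exists_injective_nat κ
  set Ek : ℕ → Set ℕ := fun k => ⋃ j ∈ {j | f j ≤ k}, B j with hEk
  have hmono : Monotone Ek := by
    intro k k' hkk t ht
    simp only [hEk, Set.mem_iUnion, Set.mem_ofPred_eq] at ht ⊢
    obtain ⟨j, hj, ht⟩ := ht
    exact ⟨j, hj.trans hkk, ht⟩
  have hnull : ∀ k, NullIn S (Ek k) := by
    intro k
    have hfin : {j | f j ≤ k}.Finite := (Set.finite_Iic k).preimage hf.injOn
    have h1 := NullIn.biUnion' (S := S) hfin.toFinset B fun j _ => h j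
    refine NullIn.mono' h1 ?_
    intro t ht
    simp only [hEk, Set.mem_iUnion, Set.mem_ofPred_eq] at ht
    obtain ⟨j, hj, ht⟩ := ht
    exact Set.mem_biUnion (hfin.mem_toFinset.2 hj) ht
  have hg : ∀ k : ℕ, ∃ g : ℕ, ∀ N : ℕ, g ≤ N →
      ({t : ℕ | t ∈ S N ∧ t ∈ Ek k}.ncard : ℝ) ≤ 1 / (k + 1) * (S N).card := fun k =>
    hnull k (1 / (k + 1)) (by positivity)
  choose g hg using hg
  set K : ℕ → ℕ := fun N => Nat.findGreatest (fun k => g k ≤ N) N with hK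
  have hKge : ∀ k N, k ≤ N → g k ≤ N → k ≤ K N := fun k N h1 h2 => Nat.le_findGreatest h1 h2
  have hKsp : ∀ N, K N ≠ 0 → g (K N) ≤ N := fun N h0 =>
    Nat.findGreatest_of_ne_zero (P := fun k => g k ≤ N) (n := N) rfl h0
  set c : ℕ → ℕ := fun t => sInf (K '' {N | t ∈ S N}) with hc
  refine ⟨{t | (∃ N, t ∈ S N) → t ∈ Ek (c t)}, ?_, ?_⟩
  · intro ε hε
    obtain ⟨k₀, hk₀⟩ := exists_nat_one_div_lt hε
    refine ⟨k₀ + 1 + g (k₀ + 1), fun N hN => ?_⟩
    have hk : k₀ + 1 ≤ K N := hKge _ _ (by omega) (by omega)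
    have hgN : g (K N) ≤ N := hKsp N (by omega)
    have hsub : {t : ℕ | t ∈ S N ∧ t ∈ {t | (∃ N, t ∈ S N) → t ∈ Ek (c t)}} ⊆
        {t : ℕ | t ∈ S N ∧ t ∈ Ek (K N)} := by
      rintro t ⟨ht, ht'⟩
      exact ⟨ht, hmono (Nat.sInf_le (show K N ∈ K '' {N | t ∈ S N} from ⟨N, ht, rfl⟩)) (ht' ⟨N, ht⟩)⟩
    have h3 := hg (K N) N hgN
    have h4 : (({t : ℕ | t ∈ S N ∧ t ∈ {t | (∃ N, t ∈ S N) → t ∈ Ek (c t)}}.ncard : ℕ) : ℝ) ≤
        ({t : ℕ | t ∈ S N ∧ t ∈ Ek (K N)}.ncard : ℕ) := by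
      exact_mod_cast Set.ncard_le_ncard hsub ((S N).finite_toSet.subset fun t ht => ht.1)
    refine h4.trans (h3.trans ?_)
    have h5 : 1 / ((K N : ℕ) + 1 : ℝ) ≤ ε := by
      refine le_trans ?_ hk₀.le
      apply one_div_le_one_div_of_le (by positivity)
      have : ((k₀ + 1 : ℕ) : ℝ) ≤ (K N : ℕ) := by exact_mod_cast hk
      push_cast at this
      linarith
    gcongr
  · intro j
    refine ((Set.finite_Iio (f j + g (f j) + 1)).biUnion
      (fun N _ => (S N).finite_toSet)).subset ?_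
    rintro t ⟨ht, ht'⟩
    have h1 : (∃ N, t ∈ S N) ∧ t ∉ Ek (c t) := by
      by_contra h2
      exact ht' fun h3 => by_contra fun h4 => h2 ⟨h3, h4⟩
    obtain ⟨⟨N₁, hN₁⟩, h2⟩ := h1
    have h3 : c t < f j := by
      by_contra h4
      apply h2
      refine hmono (not_lt.1 h4) ?_
      simp only [hEk, Set.mem_iUnion, Set.mem_ofPred_eq]
      exact ⟨j, le_rfl, ht⟩
    obtain ⟨N, hN, hKN⟩ := Nat.sInf_mem (s := K '' {N | t ∈ S N}) ⟨K N₁, N₁, hN₁, rfl⟩
    have h5 : K N < f j := by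
      rw [hKN]
      exact h3
    rw [Set.mem_iUnion₂]
    refine ⟨N, ?_, hN⟩
    rw [Set.mem_Iio]
    by_contra h6
    exact absurd (hKge (f j) N (by omega) (by omega)) (by omega)

end Pool.Agent.N455.HT
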