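import Pool.Agent.R410.LW.Main

/-!
# The fields of one root and of two roots of a polynomial over `ℤ[X_ι]` (helper455)
-/

set_option autoImplicit false
set_option linter.unusedSectionVars false

open Polynomial NumberField Pool.Agent.R410.LW

namespace Pool.Agent.N455.HT

theorem fg_of_ft {A M : Type} [CommRing A] [Algebra.FiniteType ℤ A] [Field M] [Algebra A M]
    [IsFractionRing A M] : FG M := by
  classical
  obtain ⟨S, hS⟩ := (inferInstance : Algebra.FiniteType ℤ A).out
  refine ⟨S.image (algebraMap A M), ?_⟩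
  have key : ∀ a : A, algebraMap A M a ∈
      Subfield.closure ((S.image (algebraMap A M) : Finset M) : Set M) := by
    intro a
    have ha : a ∈ Algebra.adjoin ℤ (S : Set A) := by rw [hS]; trivial
    induction ha using Algebra.adjoin_induction with
    | mem x hx =>
      refine Subfield.subset_closure ?_
      rw [Finset.coe_image]
      exact ⟨x, hx, rfl⟩
    | algebraMap n =>
      rw [eq_intCast, map_intCast]
      exact intCast_mem _ n
    | add x y _ _ h1 h2 => rw [map_add]; exact add_mem h1 h2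
    | mul x y _ _ h1 h2 => rw [map_mul]; exact mul_mem h1 h2
  rw [eq_top_iff]
  intro z _
  obtain ⟨a, b, -, rfl⟩ := IsFractionRing.div_surjective (A := A) z
  exact div_mem (key a) (key b)

section
variable {ι : Type} [Fintype ι]

theorem trdeg_of_alg (M : Type) [Field M] [CharZero M] [Algebra (MvPolynomial ι ℤ) M]
    (hinj : Function.Injective (algebraMap (MvPolynomial ι ℤ) M))
    [Algebra.IsAlgebraic (MvPolynomial ι ℤ) M] :
    Algebra.trdeg ℚ M = (Fintype.card ι : ℕ) := by
  have f1 : FaithfulSMul (MvPolynomial ι ℤ) M := (faithfulSMul_iff_algebraMap_injective _ M).2 hinj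
  have t1 : IsScalarTower ℤ (MvPolynomial ι ℤ) M := by
    refine IsScalarTower.of_algebraMap_eq fun n => ?_
    rw [eq_intCast, eq_intCast, map_intCast]
  have h1 := trdeg_add_eq ℤ (MvPolynomial ι ℤ) (A := M)
  have h4 : Algebra.trdeg (MvPolynomial ι ℤ) M = 0 := trdeg_eq_zero
  rw [MvPolynomial.trdeg_of_isDomain, h4, add_zero] at h1
  have h2 := trdeg_add_eq ℤ ℚ (A := M)
  have h5 : Algebra.IsAlgebraic ℤ ℚ := IsLocalization.isAlgebraic ℚ (nonZeroDivisors ℤ)
  have h3 : Algebra.trdeg ℤ ℚ = 0 := trdeg_eq_zero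
  rw [h3, zero_add] at h2
  rw [h2, ← h1]
  simp

/-- Lang-Weil for a model of an algebraic extension of the field of rational functions -/
theorem landau_model (A M : Type) [CommRing A] [IsDomain A] [Algebra.FiniteType ℤ A] [Field M]
    [CharZero M] [Algebra A M] [IsFractionRing A M] [Algebra (MvPolynomial ι ℤ) M]
    (hinj : Function.Injective (algebraMap (MvPolynomial ι ℤ) M))
    [Algebra.IsAlgebraic (MvPolynomial ι ℤ) M] :
    ∃ (L : Type) (_ : Field L) (_ : NumberField L), Landau A (Fintype.card ι) L := by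
  obtain ⟨L, iL, nL, h⟩ := landau (Fintype.card ι) M (fg_of_ft (A := A)) (trdeg_of_alg M hinj)
  exact ⟨L, iL, nL, h A⟩

end

section
variable {ι : Type} [Fintype ι] {P : (MvPolynomial ι ℤ)[X]}

theorem prime_of (hirr : Irreducible P) : Prime P := UniqueFactorizationMonoid.irreducible_iff_prime.1 hirr

theorem adj_isDomain (hirr : Irreducible P) : IsDomain (AdjoinRoot P) := by
  have hp := prime_of hirr
  exact (Ideal.Quotient.isDomain_iff_prime (Ideal.span {P})).2
      ((Ideal.span_singleton_prime hp.ne_zero).2 hp)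

theorem of_inj (hP : P.Monic) (hd : P.natDegree ≠ 0) :
    Function.Injective (algebraMap (MvPolynomial ι ℤ) (AdjoinRoot P)) := by
  refine AdjoinRoot.of.injective_of_degree_ne_zero ?_
  rw [Polynomial.degree_eq_natDegree hP.ne_zero]
  exact_mod_cast hd

theorem adj_alg (hP : P.Monic) : Algebra.IsAlgebraic (MvPolynomial ι ℤ) (AdjoinRoot P) := by
  have h1 : Module.Finite (MvPolynomial ι ℤ) (AdjoinRoot P) := hP.finite_adjoinRoot
  infer_instance

theorem frac_alg (hP : P.Monic) (hirr : Irreducible P) :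
    Algebra.IsAlgebraic (MvPolynomial ι ℤ) (FractionRing (AdjoinRoot P)) := by
  have h0 := adj_isDomain hirr
  have h1 := adj_alg hP
  have h2 : Algebra.IsAlgebraic (AdjoinRoot P) (FractionRing (AdjoinRoot P)) :=
    IsLocalization.isAlgebraic (FractionRing (AdjoinRoot P)) (nonZeroDivisors (AdjoinRoot P))
  exact Algebra.IsAlgebraic.trans (MvPolynomial ι ℤ) (AdjoinRoot P) (FractionRing (AdjoinRoot P))

theorem frac_inj (hP : P.Monic) (hd : P.natDegree ≠ 0) (hirr : Irreducible P) :
    Function.Injective (algebraMap (MvPolynomial ι ℤ) (FractionRing (AdjoinRoot P))) := by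
  have h0 := adj_isDomain hirr
  rw [IsScalarTower.algebraMap_eq (MvPolynomial ι ℤ) (AdjoinRoot P) (FractionRing (AdjoinRoot P))]
  exact (IsFractionRing.injective (AdjoinRoot P) (FractionRing (AdjoinRoot P))).comp (of_inj hP hd)

theorem charZero_of_inj {M : Type} [CommRing M] [Algebra (MvPolynomial ι ℤ) M]
    (h : Function.Injective (algebraMap (MvPolynomial ι ℤ) M)) : CharZero M :=
  charZero_of_injective_algebraMap h

theorem landau_one (hP : P.Monic) (hd : P.natDegree ≠ 0) (hirr : Irreducible P) :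
    ∃ (L : Type) (_ : Field L) (_ : NumberField L), Landau (AdjoinRoot P) (Fintype.card ι) L := by
  have h0 := adj_isDomain hirr
  have h1 := frac_alg hP hirr
  have h2 := frac_inj hP hd hirr
  have h3 : CharZero (FractionRing (AdjoinRoot P)) := charZero_of_inj h2
  have h4 := ft_int _ (inferInstance : Algebra.FiniteType ℤ (AdjoinRoot P))
  exact landau_model (AdjoinRoot P) (FractionRing (AdjoinRoot P)) h2

end

/-! ### two roots -/

section
variable {ι : Type} [Fintype ι] {P : (MvPolynomial ι ℤ)[X]}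

/-- two different roots in a field which they generate -/
theorem exists_two (hP : P.Monic) (hd : 2 ≤ P.natDegree) (hirr : Irreducible P) :
    ∃ (M : Type) (_ : Field M) (_ : CharZero M) (_ : Algebra (MvPolynomial ι ℤ) M) (θ₁ θ₂ : M),
      Function.Injective (algebraMap (MvPolynomial ι ℤ) M) ∧
      Algebra.IsAlgebraic (MvPolynomial ι ℤ) M ∧ θ₁ ≠ θ₂ ∧
      aeval θ₁ P = 0 ∧ aeval θ₂ P = 0 ∧
      Subfield.closure (Set.range (fun i => algebraMap (MvPolynomial ι ℤ) M (MvPolynomial.X i)) ∪
        {θ₁, θ₂}) = ⊤ := by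
  classical
  have h0 := adj_isDomain hirr
  have h1 := frac_alg hP hirr
  have h2 := frac_inj hP (by omega) hirr
  set M₁ := FractionRing (AdjoinRoot P) with hM₁
  have h3 : CharZero M₁ := charZero_of_inj h2
  set θ : M₁ := algebraMap (AdjoinRoot P) M₁ (AdjoinRoot.root P) with hθ
  have hroot : aeval θ P = 0 := by
    rw [hθ, aeval_algebraMap_apply, AdjoinRoot.aeval_eq, AdjoinRoot.mk_self, map_zero]
  -- separability
  have hirrK : Irreducible (P.map (algebraMap (MvPolynomial ι ℤ)
      (FractionRing (MvPolynomial ι ℤ)))) :=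
    (hP.irreducible_iff_irreducible_map_fraction_map).1 hirr
  have hsepK := hirrK.separable
  have hsep : (P.map (algebraMap (MvPolynomial ι ℤ) M₁)).Separable := by
    have h5 : Function.Injective (algebraMap (MvPolynomial ι ℤ) M₁) := h2
    have h6 := hsepK.map (f := IsFractionRing.lift h5)
    rw [Polynomial.map_map] at h6
    have h7 : (IsFractionRing.lift h5 : FractionRing (MvPolynomial ι ℤ) →+* M₁).comp
        (algebraMap (MvPolynomial ι ℤ) (FractionRing (MvPolynomial ι ℤ))) =
        algebraMap (MvPolynomial ι ℤ) M₁ := by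
      ext z
      · simp
      · simp
    rw [h7] at h6
    exact h6
  -- the second factor
  set P₁ := P.map (algebraMap (MvPolynomial ι ℤ) M₁) with hP₁
  have hP₁m : P₁.Monic := hP.map _
  have hP₁d : P₁.natDegree = P.natDegree := hP.natDegree_map _
  have hroot' : P₁.IsRoot θ := by
    rw [IsRoot.def, hP₁, eval_map_algebraMap]
    exact hroot
  have hmul := mul_divByMonic_eq_iff_isRoot.2 hroot'
  set P₂ := P₁ /ₘ (X - C θ) with hP₂
  have hP₂d : 0 < P₂.natDegree := by
    rw [hP₂, natDegree_divByMonic _ (monic_X_sub_C θ), natDegree_X_sub_C, hP₁d]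
    omega
  have hP₂θ : P₂.eval θ ≠ 0 := by
    have h8 := hsep.aeval_derivative_ne_zero (x := θ) (by
      rw [coe_aeval_eq_eval]
      exact hroot')
    rw [coe_aeval_eq_eval, ← hmul, derivative_mul, derivative_sub, derivative_X, derivative_C] at h8
    simpa using h8
  obtain ⟨g, hgi, hgd⟩ := exists_irreducible_of_natDegree_pos hP₂d
  have hF : Fact (Irreducible g) := ⟨hgi⟩
  have hgne : g ≠ 0 := hgi.ne_zero
  have hfin : Module.Finite M₁ (AdjoinRoot g) := (AdjoinRoot.powerBasis hgne).finite
  have halg₁ : Algebra.IsAlgebraic M₁ (AdjoinRoot g) := Algebra.IsAlgebraic.of_finite M₁ _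
  have hinj : Function.Injective (algebraMap (MvPolynomial ι ℤ) (AdjoinRoot g)) := by
    rw [IsScalarTower.algebraMap_eq (MvPolynomial ι ℤ) M₁ (AdjoinRoot g)]
    exact (algebraMap M₁ (AdjoinRoot g)).injective.comp h2
  have hg2 : aeval (AdjoinRoot.root g) P₂ = 0 := by
    obtain ⟨u, hu⟩ := hgd
    rw [hu, map_mul, AdjoinRoot.aeval_eq, AdjoinRoot.mk_self, zero_mul]
  refine ⟨AdjoinRoot g, inferInstance, charZero_of_inj hinj, inferInstance,
    algebraMap M₁ (AdjoinRoot g) θ, AdjoinRoot.root g, hinj, Algebra.IsAlgebraic.trans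
      (MvPolynomial ι ℤ) M₁ (AdjoinRoot g), ?_, ?_, ?_, ?_⟩
  · intro heq
    rw [← heq, aeval_algebraMap_apply, coe_aeval_eq_eval] at hg2
    exact hP₂θ ((map_eq_zero _).1 hg2)
  · rw [aeval_algebraMap_apply, hroot, map_zero]
  · have h8 : aeval (AdjoinRoot.root g) P = aeval (AdjoinRoot.root g) P₁ := by
      rw [hP₁, aeval_map_algebraMap]
    rw [h8, ← hmul, map_mul, hg2, mul_zero]
  · set Cf := Subfield.closure (Set.range (fun i => algebraMap (MvPolynomial ι ℤ) (AdjoinRoot g)
      (MvPolynomial.X i)) ∪ {algebraMap M₁ (AdjoinRoot g) θ, AdjoinRoot.root g}) with hCf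
    have c1 : ∀ r : MvPolynomial ι ℤ, algebraMap (MvPolynomial ι ℤ) (AdjoinRoot g) r ∈ Cf := by
      intro r
      induction r using MvPolynomial.induction_on with
      | C n =>
        have : algebraMap (MvPolynomial ι ℤ) (AdjoinRoot g) (MvPolynomial.C n) = (n : AdjoinRoot g) := by
          rw [show (MvPolynomial.C n : MvPolynomial ι ℤ) = (n : MvPolynomial ι ℤ) from
            (map_intCast MvPolynomial.C n), map_intCast]
        rw [this]
        exact intCast_mem _ n
      | add a b ha hb => rw [map_add]; exact add_mem ha hb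
      | mul_X a i ha =>
        rw [map_mul]
        exact mul_mem ha (Subfield.subset_closure (Or.inl ⟨i, rfl⟩))
    have c2 : algebraMap M₁ (AdjoinRoot g) θ ∈ Cf :=
      Subfield.subset_closure (Or.inr (Or.inl rfl))
    have c3 : AdjoinRoot.root g ∈ Cf :=
      Subfield.subset_closure (Or.inr (Or.inr rfl))
    have c4 : ∀ a : AdjoinRoot P, algebraMap M₁ (AdjoinRoot g) (algebraMap (AdjoinRoot P) M₁ a) ∈ Cf := by
      intro a
      obtain ⟨q, rfl⟩ := AdjoinRoot.mk_surjective a
      rw [← AdjoinRoot.aeval_eq, ← aeval_algebraMap_apply, ← hθ, ← aeval_algebraMap_apply,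
        aeval_eq_sum_range]
      refine sum_mem fun i _ => ?_
      rw [Algebra.smul_def]
      exact mul_mem (c1 _) (pow_mem c2 _)
    have c5 : ∀ z : M₁, algebraMap M₁ (AdjoinRoot g) z ∈ Cf := by
      intro z
      obtain ⟨a, b, -, rfl⟩ := IsFractionRing.div_surjective (A := AdjoinRoot P) z
      rw [map_div₀]
      exact div_mem (c4 a) (c4 b)
    rw [eq_top_iff]
    intro z _
    obtain ⟨q, rfl⟩ := AdjoinRoot.mk_surjective z
    rw [← AdjoinRoot.aeval_eq, aeval_eq_sum_range]
    refine sum_mem fun i _ => ?_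
    rw [Algebra.smul_def]
    exact mul_mem (c5 _) (pow_mem c3 _)

end

end Pool.Agent.N455.HT
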