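import Pool.Agent.N455.HT.Dens
import Pool.Agent.N666.TM.Turan
import Pool.Agent.N666.TM.Diag

/-!
# Hilbert's irreducibility theorem along equidistributed sequences (helper455)

Let `x n` be integral vectors which are well distributed in the residue classes modulo all integers
(for `n` in the sets `S N`, `N → ∞`). A polynomial over `ℤ[X_ι]` without a root in the field of rational
functions has no rational root at `x n`, except for a set of `n` of density zero.
-/

set_option autoImplicit false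
set_option linter.unusedSectionVars false

open Polynomial
open Pool.Agent.N666.TM Pool.Agent.Y722.HS

namespace Pool.Agent.N455.HT

/-! ### sets of density zero -/

section
variable {S : ℕ → Finset ℕ} {E F : Set ℕ}

theorem NullIn.mono' (h : NullIn S F) (hEF : E ⊆ F) : NullIn S E := by
  intro ε hε
  obtain ⟨N₀, hN₀⟩ := h ε hε
  refine ⟨N₀, fun N hN => le_trans ?_ (hN₀ N hN)⟩
  have h1 : {t : ℕ | t ∈ S N ∧ t ∈ E} ⊆ {t : ℕ | t ∈ S N ∧ t ∈ F} := fun t ht => ⟨ht.1, hEF ht.2⟩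
  exact_mod_cast Set.ncard_le_ncard h1 ((Finset.finite_toSet (S N)).subset fun t ht => ht.1)

theorem NullIn.union' (h : NullIn S E) (h' : NullIn S F) : NullIn S (E ∪ F) := by
  intro ε hε
  obtain ⟨N₁, h₁⟩ := h (ε / 2) (by positivity)
  obtain ⟨N₂, h₂⟩ := h' (ε / 2) (by positivity)
  refine ⟨max N₁ N₂, fun N hN => ?_⟩
  have a1 := h₁ N ((le_max_left _ _).trans hN)
  have a2 := h₂ N ((le_max_right _ _).trans hN)
  have h3 : {t : ℕ | t ∈ S N ∧ t ∈ E ∪ F} = {t : ℕ | t ∈ S N ∧ t ∈ E} ∪ {t : ℕ | t ∈ S N ∧ t ∈ F} := by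
    ext t
    simp only [Set.mem_union, Set.mem_ofPred_eq]
    tauto
  have h4 : (({t : ℕ | t ∈ S N ∧ t ∈ E ∪ F}.ncard : ℕ) : ℝ) ≤
      ({t : ℕ | t ∈ S N ∧ t ∈ E}.ncard : ℝ) + ({t : ℕ | t ∈ S N ∧ t ∈ F}.ncard : ℝ) := by
    rw [h3]
    exact_mod_cast Set.ncard_union_le _ _
  linarith

theorem NullIn.empty' : NullIn S ∅ := by
  intro ε hε
  refine ⟨0, fun N _ => ?_⟩
  have : {t : ℕ | t ∈ S N ∧ t ∈ (∅ : Set ℕ)} = ∅ := by
    ext t
    simp
  rw [this, Set.ncard_empty]
  push_cast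
  positivity

theorem NullIn.biUnion' {J : Type} (s : Finset J) (f : J → Set ℕ) (h : ∀ j ∈ s, NullIn S (f j)) :
    NullIn S (⋃ j ∈ s, f j) := by
  classical
  induction s using Finset.induction_on with
  | empty => simpa using NullIn.empty'
  | insert a s ha ih =>
    rw [Finset.set_biUnion_insert]
    exact NullIn.union' (h a (Finset.mem_insert_self _ _))
      (ih fun j hj => h j (Finset.mem_insert_of_mem hj))

end

section
variable {ι : Type} [Fintype ι] [DecidableEq ι]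

/-- the vectors `x n`, `n ∈ S N`, are equidistributed modulo all integers, for `N → ∞` -/
def WS (S : ℕ → Finset ℕ) (x : ℕ → ι → ℤ) : Prop :=
  ∀ H : ℕ, ∃ N₀ : ℕ, ∀ N : ℕ, N₀ ≤ N → Well (S N) x H

theorem WS.of_power {S : ℕ → Finset ℕ} {x : ℕ → ι → ℤ} (h : ∃ κ : ℝ, 0 < κ ∧ ∃ N₀ : ℕ, ∀ N : ℕ, N₀ ≤ N →
    ∀ H : ℕ, (H : ℝ) ≤ (N : ℝ) ^ κ → Well (S N) x H) : WS S x := by
  obtain ⟨κ, hκ, N₀, h⟩ := h
  intro H
  have h1 : Filter.Tendsto (fun N : ℕ => (N : ℝ) ^ κ) Filter.atTop Filter.atTop :=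
    (tendsto_rpow_atTop hκ).comp tendsto_natCast_atTop_atTop
  obtain ⟨N₁, hN₁⟩ := Filter.eventually_atTop.1 (h1.eventually_ge_atTop (H : ℝ))
  exact ⟨max N₀ N₁, fun N hN => h N ((le_max_left _ _).trans hN) H (hN₁ N ((le_max_right _ _).trans hN))⟩

/-- sets with small residue densities -/
theorem periodic_le {S : ℕ → Finset ℕ} {x : ℕ → ι → ℤ} (hw : WS S x) (q : ℕ) (hq : 1 ≤ q)
    (Ω : Set (ι → ZMod q)) {ε : ℝ} (hΩ : 2 * dens Ω ≤ ε) :
    ∃ N₀ : ℕ, ∀ N : ℕ, N₀ ≤ N →
      ({n : ℕ | n ∈ S N ∧ red q (x n) ∈ Ω}.ncard : ℝ) ≤ ε * (S N).card := by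
  classical
  obtain ⟨N₀, h⟩ := hw q
  refine ⟨N₀, fun N hN => ?_⟩
  have hW := h N hN
  have h1 := SA_ind hW q hq (by omega) Ω
  have hs : (0 : ℝ) < (S N).card := by exact_mod_cast hW.pos
  have h2 : SA (S N) x (fun c => ind Ω (red q c)) =
      ({n : ℕ | n ∈ S N ∧ red q (x n) ∈ Ω}.ncard : ℝ) / (S N).card := by
    unfold SA ind
    rw [Finset.sum_boole]
    congr 2
    rw [← Set.ncard_coe_finset]
    congr 1
    ext n
    simp
  rw [h2] at h1
  have h3 := (abs_le.1 h1).2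
  have h4 : 1 / (2 * (q : ℝ) + 1) * dens Ω ≤ dens Ω := by
    have h5 : 1 / (2 * (q : ℝ) + 1) ≤ 1 := by
      rw [div_le_one (by positivity)]
      have : (0 : ℝ) ≤ q := by positivity
      linarith
    exact mul_le_of_le_one_left (dens_nonneg Ω) h5
  rw [← div_le_iff₀ hs]
  linarith

theorem ev_red {p : ℕ} (c : ι → ℤ) : ev (red p c) = (Int.castRingHom (ZMod p)).comp (ev c) := by
  rw [hom_eq_ev ((Int.castRingHom (ZMod p)).comp (ev c))]
  congr 1
  funext i
  rw [RingHom.comp_apply, ev_X]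
  rfl

theorem isRt_red {P : (MvPolynomial ι ℤ)[X]} {c : ι → ℤ} {a : ℤ} (h : IsRt P c a) (p : ℕ) :
    IsRt P (red p c) (a : ZMod p) := by
  rw [isRt_iff] at h ⊢
  have h1 := congrArg (Int.castRingHom (ZMod p)) h
  rw [hom_eval₂, map_zero, ← ev_red] at h1
  exact h1

/-- irreducible monic polynomials -/
theorem hit_irr {S : ℕ → Finset ℕ} {x : ℕ → ι → ℤ} (hw : WS S x) {P : (MvPolynomial ι ℤ)[X]}
    (hP : P.Monic) (hd : 2 ≤ P.natDegree) (hirr : Irreducible P) :
    NullIn S {n | ∃ a : ℤ, IsRt P (x n) a} := by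
  classical
  intro ε hε
  obtain ⟨T, hT, hM⟩ := exists_primes hP hd hirr (4 / ε)
  set H : ℕ := (T.sup id) ^ 2 + ⌈4 / ε⌉₊ with hH
  obtain ⟨N₀, hN₀⟩ := hw H
  refine ⟨N₀, fun N hN => ?_⟩
  have hW := hN₀ N hN
  have hle : ∀ p ∈ T, p ≤ T.sup id := fun p hp => Finset.le_sup (f := id) hp
  have hμ0 : 0 < ∑ p ∈ T, dens (NR P p) := lt_of_lt_of_le (by positivity) hM
  have h1 := turan hW T (fun p => p) (fun p hp => (hT p hp).pos)
    (fun p hp p' hp' hne => (Nat.coprime_primes (hT p hp) (hT p' hp')).2 hne)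
    (fun p hp p' hp' => by
      have := Nat.mul_le_mul (hle p hp) (hle p' hp')
      have e : T.sup id * T.sup id = (T.sup id) ^ 2 := (sq _).symm
      omega)
    (fun p => NR P p) _ rfl hμ0
  have hsub : {n : ℕ | n ∈ S N ∧ n ∈ {n | ∃ a : ℤ, IsRt P (x n) a}} ⊆
      ((S N).filter fun n => ∀ p ∈ T, red p (x n) ∉ NR P p : Finset ℕ) := by
    rintro n ⟨hn, a, ha⟩
    rw [Finset.mem_coe, Finset.mem_filter]
    exact ⟨hn, fun p _ hp => hp a (isRt_red ha p)⟩
  have h2 : (({n : ℕ | n ∈ S N ∧ n ∈ {n | ∃ a : ℤ, IsRt P (x n) a}}.ncard : ℕ) : ℝ) ≤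
      (((S N).filter fun n => ∀ p ∈ T, red p (x n) ∉ NR P p).card : ℝ) := by
    have := Set.ncard_le_ncard hsub (Finset.finite_toSet _)
    rw [Set.ncard_coe_finset] at this
    exact_mod_cast this
  refine h2.trans (h1.trans ?_)
  have h3 : 2 / (∑ p ∈ T, dens (NR P p)) ≤ ε / 2 := by
    rw [div_le_iff₀ hμ0]
    have h4 : 4 / ε ≤ ∑ p ∈ T, dens (NR P p) := hM
    rw [div_le_iff₀ hε] at h4
    linarith
  have h5 : (4 : ℝ) / (2 * H + 1) ≤ ε / 2 := by
    have h4 : 4 / ε ≤ (H : ℝ) := (Nat.le_ceil _).trans (by exact_mod_cast (by omega : ⌈4 / ε⌉₊ ≤ H))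
    rw [div_le_iff₀ hε] at h4
    rw [div_le_iff₀ (by positivity)]
    nlinarith
  gcongr
  linarith

theorem isRt_mul {k : Type} [CommRing k] [IsDomain k] {P Q : (MvPolynomial ι ℤ)[X]} {v : ι → k} {a : k}
    (h : IsRt (P * Q) v a) : IsRt P v a ∨ IsRt Q v a := by
  unfold IsRt at h ⊢
  rw [Polynomial.map_mul, eval_mul] at h
  exact mul_eq_zero.1 h

/-- **Hilbert irreducibility for integral roots of monic polynomials.** -/
theorem hit_monic {S : ℕ → Finset ℕ} {x : ℕ → ι → ℤ} (hw : WS S x) : ∀ (m : ℕ)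
    (P : (MvPolynomial ι ℤ)[X]), P.natDegree = m → P.Monic → (∀ a, P.eval a ≠ 0) →
    NullIn S {n | ∃ a : ℤ, IsRt P (x n) a} := by
  intro m
  induction m using Nat.strong_induction_on with
  | _ m ih =>
    intro P hPm hP hroot
    by_cases h0 : P.natDegree = 0
    · have h1 : P = 1 := eq_one_of_monic_natDegree_zero hP h0
      refine NullIn.mono' NullIn.empty' ?_
      rintro n ⟨a, ha⟩
      unfold IsRt at ha
      rw [h1, Polynomial.map_one, eval_one] at ha
      exact one_ne_zero ha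
    · have hnu : ¬ IsUnit P := fun h => h0 (natDegree_eq_zero_of_isUnit h)
      obtain ⟨Q, hQ, R, hR⟩ := WfDvdMonoid.exists_irreducible_factor hnu hP.ne_zero
      -- make the factor monic
      have hlc : Q.leadingCoeff * R.leadingCoeff = 1 := by
        rw [← leadingCoeff_mul, ← hR]
        exact hP
      set Q' := Q * C R.leadingCoeff with hQ'
      set R' := R * C Q.leadingCoeff with hR'
      have hQm : Q'.Monic := by
        unfold Polynomial.Monic
        rw [hQ', leadingCoeff_mul, leadingCoeff_C, hlc]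
      have hRm : R'.Monic := by
        unfold Polynomial.Monic
        rw [hR', leadingCoeff_mul, leadingCoeff_C, mul_comm, hlc]
      have hPQR : P = Q' * R' := by
        rw [hR, hQ', hR']
        have : C R.leadingCoeff * C Q.leadingCoeff = (1 : (MvPolynomial ι ℤ)[X]) := by
          rw [← C_mul, mul_comm, hlc, C_1]
        calc Q * R = Q * R * (C R.leadingCoeff * C Q.leadingCoeff) := by rw [this, mul_one]
          _ = _ := by ring
      have hQi : Irreducible Q' := by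
        have hu : IsUnit (C R.leadingCoeff : (MvPolynomial ι ℤ)[X]) := by
          refine Polynomial.isUnit_C.2 ?_
          exact IsUnit.of_mul_eq_one Q.leadingCoeff (by rw [mul_comm]; exact hlc)
        rw [hQ', irreducible_mul_isUnit hu]
        exact hQ
      have hQr : ∀ a, Q'.eval a ≠ 0 := by
        intro a ha
        apply hroot a
        rw [hPQR, eval_mul, ha, zero_mul]
      have hQd : 2 ≤ Q'.natDegree := by
        by_contra hlt
        have h1 : Q'.natDegree = 0 ∨ Q'.natDegree = 1 := by omega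
        rcases h1 with h1 | h1
        · have h2 : Q' = 1 := eq_one_of_monic_natDegree_zero hQm h1
          exact hQi.not_isUnit (by rw [h2]; exact isUnit_one)
        · have h2 := hQm.eq_X_add_C h1
          apply hQr (-(Q'.coeff 0))
          rw [h2]
          simp
      have hdeg : Q'.natDegree + R'.natDegree = P.natDegree := by
        rw [hPQR, hQm.natDegree_mul hRm]
      have n1 := hit_irr hw hQm hQd hQi
      have n2 := ih R'.natDegree (by omega) R' rfl hRm (by
        intro a ha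
        apply hroot a
        rw [hPQR, eval_mul, ha, mul_zero])
      refine NullIn.mono' (NullIn.union' n1 n2) ?_
      rintro n ⟨a, ha⟩
      rw [hPQR] at ha
      rcases isRt_mul ha with h | h
      · exact Or.inl ⟨a, h⟩
      · exact Or.inr ⟨a, h⟩

/-- **The zeros of a polynomial.** -/
theorem zero_null {S : ℕ → Finset ℕ} {x : ℕ → ι → ℤ} (hw : WS S x) {t : MvPolynomial ι ℤ}
    (ht : t ≠ 0) : NullIn S {n | ev (x n) t = 0} := by
  classical
  intro ε hε
  obtain ⟨p₀, hp₀⟩ := zeros_le t ht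
  obtain ⟨p, hpp, hp⟩ := Nat.exists_infinite_primes (max p₀ ⌈2 * t.totalDegree / ε⌉₊)
  have hF : Fact p.Prime := ⟨hp⟩
  have h1 := hp₀ p ((le_max_left _ _).trans hpp)
  have h2 : 2 * (t.totalDegree : ℝ) / ε ≤ p :=
    (Nat.le_ceil _).trans (by exact_mod_cast (le_max_right _ _).trans hpp)
  have hp0 : (0 : ℝ) < p := by exact_mod_cast hp.pos
  obtain ⟨N₀, hN₀⟩ := periodic_le hw p hp.one_lt.le {v | ev v t = 0} (ε := ε) (by
    unfold dens
    have h3 : (({v : ι → ZMod p | ev v t = 0}.ncard : ℕ) : ℝ) =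
        (Nat.card {v : ι → ZMod p // ev v t = 0} : ℝ) := rfl
    rw [h3]
    have hQ : (0 : ℝ) < (p : ℝ) ^ Fintype.card ι := by positivity
    rw [div_le_iff₀ hε] at h2
    rw [mul_div_assoc', div_le_iff₀ hQ]
    have h4 : 2 * (Nat.card {v : ι → ZMod p // ev v t = 0} : ℝ) * p ≤
        ε * (p : ℝ) ^ Fintype.card ι * p := by
      calc 2 * (Nat.card {v : ι → ZMod p // ev v t = 0} : ℝ) * p =
          2 * ((Nat.card {v : ι → ZMod p // ev v t = 0} : ℝ) * p) := by ring
        _ ≤ 2 * (t.totalDegree * (p : ℝ) ^ Fintype.card ι) := by gcongr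
        _ = 2 * t.totalDegree * (p : ℝ) ^ Fintype.card ι := by ring
        _ ≤ p * ε * (p : ℝ) ^ Fintype.card ι := by gcongr
        _ = _ := by ring
    exact le_of_mul_le_mul_right h4 hp0)
  refine ⟨N₀, fun N hN => le_trans ?_ (hN₀ N hN)⟩
  have hsub : {n : ℕ | n ∈ S N ∧ n ∈ {n | ev (x n) t = 0}} ⊆
      {n : ℕ | n ∈ S N ∧ red p (x n) ∈ {v | ev v t = 0}} := by
    rintro n ⟨hn, h0⟩
    refine ⟨hn, ?_⟩
    have h5 : ev (x n) t = 0 := h0
    show ev (red p (x n)) t = 0
    rw [ev_red, RingHom.comp_apply, h5, map_zero]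
  exact_mod_cast Set.ncard_le_ncard hsub ((Finset.finite_toSet (S N)).subset fun t ht => ht.1)

end

end Pool.Agent.N455.HT
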